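import Pool.Agent.H508R3.WS.Stmts

/-! Project H508-WEISS, TaskB: zero-dimensional systems are scale-stable. -/

set_option autoImplicit false

open Filter Topology

namespace Pool.Agent.H600R3.WSB

open Pool.Agent.H508R3.WS

variable {X : Type} {n : ℕ}

/-- itineraries -/
def itin (g : X → Fin n) (F : X → X) (T : ℕ) (x : X) : Fin T → Fin n := fun t => g (F^[t] x)

/-- the relation of equal colours -/
def RR (g : X → Fin n) : Set (X × X) := {p | g p.1 = g p.2}

/-- number of itineraries -/
noncomputable def NN (g : X → Fin n) (F : X → X) (T : ℕ) : ℕ := (Set.range (itin g F T)).ncard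

theorem itin_eq_iff (g : X → Fin n) (F : X → X) (T : ℕ) (x y : X) :
    itin g F T x = itin g F T y ↔ ∀ t < T, (F^[t] x, F^[t] y) ∈ RR g := by
  constructor
  · intro h t ht
    exact congrFun h ⟨t, ht⟩
  · intro h
    funext t
    exact h t t.2

theorem sep_iff (g : X → Fin n) (F : X → X) (T : ℕ) (E : Finset X) :
    Sep (RR g) F T E ↔ Set.InjOn (itin g F T) (E : Set X) := by
  constructor
  · intro h x hx y hy hxy
    by_contra hne
    obtain ⟨t, ht, h1⟩ := h x hx y hy hne
    exact h1 ((itin_eq_iff g F T x y).1 hxy t ht)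
  · intro h x hx y hy hne
    by_contra hcon
    push Not at hcon
    exact hne (h hx hy ((itin_eq_iff g F T x y).2 hcon))

theorem exists_rep (g : X → Fin n) (F : X → X) (T : ℕ) : ∃ E : Finset X,
    Sep (RR g) F T E ∧ Span (RR g) F T E ∧ E.card = NN g F T := by
  classical
  obtain ⟨s, -, hs⟩ := Set.exists_subset_bijOn (Set.univ : Set X) (itin g F T)
  rw [Set.image_univ] at hs
  have hfin : s.Finite := by
    have h1 : (Set.range (itin g F T)).Finite := Set.toFinite _
    exact Set.Finite.of_finite_image (hs.image_eq ▸ h1) hs.injOn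
  refine ⟨hfin.toFinset, ?_, ?_, ?_⟩
  · rw [sep_iff, Set.Finite.coe_toFinset]
    exact hs.injOn
  · intro x
    obtain ⟨y, hy, hxy⟩ := hs.surjOn ⟨x, rfl⟩
    exact ⟨y, by rwa [Set.Finite.mem_toFinset], (itin_eq_iff g F T x y).1 hxy.symm⟩
  · rw [← Set.ncard_eq_toFinset_card s hfin, NN, ← hs.image_eq, hs.injOn.ncard_image]

theorem sep_le (g : X → Fin n) (F : X → X) (T : ℕ) (E : Finset X) (h : Sep (RR g) F T E) :
    E.card ≤ NN g F T := by
  rw [sep_iff] at h
  rw [← Set.ncard_coe_finset E, ← h.ncard_image]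
  exact Set.ncard_le_ncard (Set.image_subset_range _ _) (Set.toFinite _)

theorem le_span (g : X → Fin n) (F : X → X) (T : ℕ) (E : Finset X) (h : Span (RR g) F T E) :
    NN g F T ≤ E.card := by
  classical
  have h1 : Set.range (itin g F T) ⊆ itin g F T '' (E : Set X) := by
    rintro _ ⟨x, rfl⟩
    obtain ⟨y, hy, hxy⟩ := h x
    exact ⟨y, hy, ((itin_eq_iff g F T x y).2 hxy).symm⟩
  calc NN g F T ≤ (itin g F T '' (E : Set X)).ncard := Set.ncard_le_ncard h1 (Set.toFinite _)
    _ ≤ (E : Set X).ncard := Set.ncard_image_le (Set.toFinite _)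
    _ = E.card := Set.ncard_coe_finset E

theorem sepN_eq (g : X → Fin n) (F : X → X) (T : ℕ) : sepN (RR g) F T = NN g F T := by
  obtain ⟨E, h1, -, h3⟩ := exists_rep g F T
  refine IsGreatest.csSup_eq ⟨⟨E, h1, h3⟩, ?_⟩
  rintro m ⟨E', h', rfl⟩
  exact sep_le g F T E' h'

theorem spanN_eq (g : X → Fin n) (F : X → X) (T : ℕ) : spanN (RR g) F T = NN g F T := by
  obtain ⟨E, -, h2, h3⟩ := exists_rep g F T
  refine IsLeast.csInf_eq ⟨⟨E, h2, h3⟩, ?_⟩
  rintro m ⟨E', h', rfl⟩
  exact le_span g F T E' h'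

theorem NN_mul (g : X → Fin n) (F : X → X) (S T : ℕ) :
    NN g F (S + T) ≤ NN g F S * NN g F T := by
  unfold NN
  rw [← Set.ncard_prod]
  refine Set.ncard_le_ncard_of_injOn
    (fun w : Fin (S + T) → Fin n => (fun i => w (Fin.castAdd T i), fun j => w (Fin.natAdd S j)))
    ?_ ?_ (Set.toFinite _)
  · rintro _ ⟨x, rfl⟩
    refine ⟨⟨x, ?_⟩, ⟨F^[S] x, ?_⟩⟩
    · funext i
      rfl
    · funext j
      show g (F^[j] (F^[S] x)) = g (F^[S + j] x)
      rw [← Function.iterate_add_apply, add_comm]
  · intro w _ w' _ h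
    have h1 := congrArg Prod.fst h
    have h2 := congrArg Prod.snd h
    funext i
    refine Fin.addCases (fun i => ?_) (fun j => ?_) i
    · exact congrFun h1 i
    · exact congrFun h2 j

theorem rate (g : X → Fin n) (F : X → X) : ∃ h : ℝ, Rate (NN g F) h := by
  have hsub : Subadditive (fun T : ℕ => Real.log (NN g F T)) := by
    intro S T
    show Real.log (NN g F (S + T)) ≤ Real.log (NN g F S) + Real.log (NN g F T)
    rcases isEmpty_or_nonempty X with hX | ⟨⟨x⟩⟩
    · have h0 : ∀ T, NN g F T = 0 := by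
        intro T
        unfold NN
        rw [Set.range_eq_empty, Set.ncard_empty]
      simp [h0]
    · have h0 : ∀ T, 0 < NN g F T := by
        intro T
        unfold NN
        exact (Set.ncard_pos (Set.toFinite _)).2 ⟨_, x, rfl⟩
      rw [← Real.log_mul (by exact_mod_cast (h0 S).ne') (by exact_mod_cast (h0 T).ne')]
      refine Real.log_le_log (by exact_mod_cast h0 _) ?_
      exact_mod_cast NN_mul g F S T
  refine ⟨hsub.lim, hsub.tendsto_lim ⟨0, ?_⟩⟩
  rintro _ ⟨T, rfl⟩
  exact div_nonneg (Real.log_natCast_nonneg _) (Nat.cast_nonneg _)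

theorem taskB : TaskB := by
  intro X _ _ _ F _ η hη
  have hS : {p : X × X | dist p.1 p.2 < η / 2} ∈ nhdsSet (Set.diagonal X) := by
    rw [mem_nhdsSet_iff_forall]
    rintro ⟨x, y⟩ hxy
    have hxy' : x = y := hxy
    subst hxy'
    refine (isOpen_lt (continuous_fst.dist continuous_snd) continuous_const).mem_nhds ?_
    show dist x x < η / 2
    rw [dist_self]
    positivity
  obtain ⟨n, g, h, hg, hgh⟩ :=
    ContinuousMap.exists_finite_approximation_of_mem_nhds_diagonal (ContinuousMap.id X) hS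
  obtain ⟨r, hr⟩ := rate g F
  have hclopen : IsClopen (RR g) := by
    have : RR g = (fun p : X × X => (g p.1, g p.2)) ⁻¹' {q | q.1 = q.2} := rfl
    rw [this]
    exact (isClopen_discrete _).preimage ((hg.comp continuous_fst).prodMk (hg.comp continuous_snd))
  refine ⟨RR g, RR g, r, hclopen.isClosed, fun x y hxy => ?_, fun x y hxy => ?_, fun x => ?_, ?_,
    fun x y hxy => ?_, ?_, ?_⟩
  · exact Eq.symm hxy
  · exact Eq.symm hxy
  · rw [hclopen.isOpen.interior_eq]
    exact (rfl : g x = g x)
  · rw [hclopen.isOpen.interior_eq]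
  · have h1 : dist x (h (g x)) < η / 2 := hgh x
    have h2 : dist y (h (g y)) < η / 2 := hgh y
    have h3 : g x = g y := hxy
    rw [← h3] at h2
    calc dist x y ≤ dist x (h (g x)) + dist y (h (g x)) := dist_triangle_right _ _ _
      _ < η := by linarith
  · unfold Rate
    simp only [spanN_eq]
    exact hr
  · unfold Rate
    simp only [sepN_eq]
    exact hr

end Pool.Agent.H600R3.WSB
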